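import Pool.Agent.Q161.ESJ.Stm1
import Pool.Agent.Q237.ESN.EMB3

/-! # Project ESJ: twists, the field `L` -/

set_option autoImplicit false

namespace Pool.Agent.Q161.ESJ

open Polynomial NumberField IsDedekindDomain

section tw

variable {F : Type} [Field F]

theorem HP.ext' {H H' : HP F} (h : H.pol = H'.pol) : H = H' := by
  cases H
  cases H'
  simpa using h

theorem twist_twist (H : HP F) (D E : F) : (H.twist D).twist E = H.twist (D * E) :=
  HP.ext' (scaleRoots_mul H.pol D E).symm

theorem twist_one (H : HP F) : H.twist 1 = H := HP.ext' (scaleRoots_one H.pol)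

theorem natDegree_twist (H : HP F) (D : F) : (H.twist D).pol.natDegree = H.pol.natDegree :=
  natDegree_scaleRoots _ _

variable {L : Type} [Field L] [Algebra F L]

theorem SetF.finite {H : HP F} {θ : L} (h : SetF H L θ) : Module.Finite F L := by
  refine Module.finite_of_finrank_pos ?_
  rw [h.deg]
  exact h.irr.natDegree_pos

theorem SetF.twist {H : HP F} {θ : L} (h : SetF H L θ) {D : F} (hD : D ≠ 0) :
    SetF (H.twist D) L (algebraMap F L D * θ) := by
  have hfin := h.finite
  have hroot : aeval (algebraMap F L D * θ) (H.twist D).pol = 0 := scaleRoots_aeval_eq_zero h.root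
  have hdeg : Module.finrank F L = (H.twist D).pol.natDegree := by rw [h.deg, natDegree_twist]
  have hmin : minpoly F θ = H.pol := (minpoly.eq_of_irreducible_of_monic h.irr h.root H.monic).symm
  have htop : IntermediateField.adjoin F {θ} = ⊤ :=
    (Field.primitive_element_iff_minpoly_natDegree_eq F θ).2 (by rw [hmin, h.deg])
  have hD' : algebraMap F L D ≠ 0 := (_root_.map_ne_zero _).2 hD
  have htop2 : IntermediateField.adjoin F {algebraMap F L D * θ} = ⊤ := by
    rw [eq_top_iff, ← htop, IntermediateField.adjoin_simple_le_iff]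
    have h1 : algebraMap F L D * θ ∈ IntermediateField.adjoin F {algebraMap F L D * θ} :=
      IntermediateField.mem_adjoin_simple_self F _
    have h2 : θ = algebraMap F L D⁻¹ * (algebraMap F L D * θ) := by
      rw [map_inv₀, inv_mul_cancel_left₀ hD']
    have h3 : algebraMap F L D⁻¹ * (algebraMap F L D * θ) ∈
        IntermediateField.adjoin F {algebraMap F L D * θ} :=
      mul_mem (IntermediateField.algebraMap_mem _ _) h1
    rwa [← h2] at h3
  have hint : IsIntegral F (algebraMap F L D * θ) := Algebra.IsIntegral.isIntegral _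
  have h3 : minpoly F (algebraMap F L D * θ) = (H.twist D).pol := by
    symm
    refine Polynomial.eq_of_monic_of_dvd_of_natDegree_le (minpoly.monic hint) (H.twist D).monic
      (minpoly.dvd F _ hroot) ?_
    rw [(Field.primitive_element_iff_minpoly_natDegree_eq F _).1 htop2, hdeg]
  exact ⟨h3 ▸ minpoly.irreducible hint, hroot, hdeg⟩

end tw

section nf

variable {F : Type} [Field F] [NumberField F]

theorem dat_of {H : HP F} {L : Type} [Field L] [NumberField L] [Algebra F L] {th : 𝓞 L}
    (h : SetF H L (th : L)) (K : Type) [Field K] [NumberField K] [Algebra F K] [IsGalois ℚ K]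
    (hK : Nonempty (L →ₐ[F] K)) : Pool.Agent.Q161.ESN.Dat F K th := by
  have hcard : Fintype.card (L →ₐ[F] K) = H.pol.natDegree :=
    (Pool.Agent.Q237.ESN.card_emb F L K hK).trans h.deg
  refine ⟨by rw [hcard]; exact H.odd, ?_⟩
  intro ι ι' hι
  have hfin := h.finite
  have hmin : minpoly F (th : L) = H.pol := (minpoly.eq_of_irreducible_of_monic h.irr h.root H.monic).symm
  have htop : IntermediateField.adjoin F {(th : L)} = ⊤ :=
    (Field.primitive_element_iff_minpoly_natDegree_eq F (th : L)).2 (by rw [hmin, h.deg])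
  have hint : IsIntegral F (th : L) := Algebra.IsIntegral.isIntegral _
  have htop2 : Algebra.adjoin F {(th : L)} = ⊤ := by
    rw [← IntermediateField.adjoin_simple_toSubalgebra_of_isAlgebraic hint.isAlgebraic, htop,
      IntermediateField.top_toSubalgebra]
  refine AlgHom.ext_of_adjoin_eq_top htop2 ?_
  intro x hx
  rw [Set.mem_singleton_iff] at hx
  rw [hx]
  exact hι

/-- the coefficients of `h` are algebraic integers -/
def Intg (H : HP F) : Prop := ∀ i, IsIntegral ℤ (H.pol.coeff i)

theorem exists_L (H : HP F) (hI : Intg H) (h : Irreducible H.pol) :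
    ∃ (L : Type) (_ : Field L) (_ : NumberField L) (_ : Algebra F L) (th : 𝓞 L), SetF H L (th : L) := by
  obtain ⟨f, hf⟩ : ∃ f, f = H.pol := ⟨_, rfl⟩
  have : Fact (Irreducible f) := ⟨by rw [hf]; exact h⟩
  have hf0 : f ≠ 0 := (Fact.out (p := Irreducible f)).ne_zero
  have : Module.Finite F (AdjoinRoot f) := (AdjoinRoot.powerBasis hf0).finite
  have hNF : NumberField (AdjoinRoot f) := NumberField.of_module_finite F (AdjoinRoot f)
  have hr : aeval (AdjoinRoot.root f) f = 0 := AdjoinRoot.aeval_eq f ▸ AdjoinRoot.mk_self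
  have hint : IsIntegral ℤ (AdjoinRoot.root f) := by
    -- `f` has coefficients in `𝓞 F`
    obtain ⟨g, hg, -, hgm⟩ := Polynomial.lifts_and_natDegree_eq_and_monic
      (f := algebraMap (𝓞 F) F) (p := f) (by
        rw [Polynomial.lifts_iff_coeff_lifts]
        intro n
        have h1 : IsIntegral ℤ (f.coeff n) := by rw [hf]; exact hI n
        exact ⟨⟨f.coeff n, h1⟩, rfl⟩) (by rw [hf]; exact H.monic)
    apply isIntegral_trans (A := 𝓞 F)
    refine ⟨g, hgm, ?_⟩
    have h2 : aeval (AdjoinRoot.root f) (g.map (algebraMap (𝓞 F) F)) = 0 := by rw [hg]; exact hr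
    rw [aeval_map_algebraMap] at h2
    exact h2
  refine ⟨AdjoinRoot f, inferInstance, hNF, inferInstance, ⟨AdjoinRoot.root f, hint⟩, h, ?_, ?_⟩
  · rw [← hf]
    exact hr
  · rw [(AdjoinRoot.powerBasis hf0).finrank, AdjoinRoot.powerBasis_dim, hf]

theorem Intg.twist {H : HP F} (h : Intg H) {D : F} (hD : IsIntegral ℤ D) : Intg (H.twist D) := by
  intro i
  change IsIntegral ℤ ((H.pol.scaleRoots D).coeff i)
  rw [coeff_scaleRoots]
  exact (h i).mul (hD.pow _)

/-- a common denominator: `u² θ` is integral -/
theorem exists_scale (J : Type) [Fintype J] (H : J → HP F) :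
    ∃ u : F, u ≠ 0 ∧ IsIntegral ℤ u ∧ ∀ j, Intg ((H j).twist (u ^ 2)) := by
  classical
  -- a nonzero integer which makes finitely many elements integral
  have h1 : ∀ S : Finset F, ∃ n : ℤ, n ≠ 0 ∧ ∀ x ∈ S, IsIntegral ℤ ((n : F) * x) := by
    intro S
    induction S using Finset.induction_on with
    | empty => exact ⟨1, one_ne_zero, fun x hx => absurd hx (Finset.notMem_empty x)⟩
    | insert x S _ ih =>
      obtain ⟨n, hn, h⟩ := ih
      have hx : IsAlgebraic ℤ x := by
        have h2 : IsAlgebraic ℚ x := Algebra.IsAlgebraic.isAlgebraic x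
        exact (IsFractionRing.isAlgebraic_iff ℤ ℚ F).2 h2
      obtain ⟨m, hm, h3⟩ := hx.exists_integral_multiple
      refine ⟨n * m, mul_ne_zero hn hm, fun y hy => ?_⟩
      rcases Finset.mem_insert.1 hy with rfl | hy
      · have h4 : ((n * m : ℤ) : F) * y = (n : F) * (m • y) := by
          rw [zsmul_eq_mul]
          push_cast
          ring
        rw [h4]
        exact (isIntegral_algebraMap (R := ℤ) (A := F) (x := n)).mul h3
      · have h4 : ((n * m : ℤ) : F) * y = (m : F) * ((n : F) * y) := by
          push_cast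
          ring
        rw [h4]
        exact (isIntegral_algebraMap (R := ℤ) (A := F) (x := m)).mul (h y hy)
  obtain ⟨n, hn, hn2⟩ := h1 (Finset.univ.biUnion fun j : J =>
    (Finset.range ((H j).pol.natDegree + 1)).image fun i => (H j).pol.coeff i)
  have hnI : IsIntegral ℤ (n : F) := isIntegral_algebraMap (R := ℤ) (A := F) (x := n)
  refine ⟨(n : F), by exact_mod_cast hn, hnI, fun j i => ?_⟩
  change IsIntegral ℤ (((H j).pol.scaleRoots ((n : F) ^ 2)).coeff i)
  rw [coeff_scaleRoots]
  rcases lt_trichotomy i (H j).pol.natDegree with hi | hi | hi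
  · have h5 : IsIntegral ℤ ((n : F) * (H j).pol.coeff i) := hn2 _ (Finset.mem_biUnion.2
      ⟨j, Finset.mem_univ _, Finset.mem_image.2 ⟨i, Finset.mem_range.2 (by omega), rfl⟩⟩)
    obtain ⟨e, he⟩ : ∃ e, 2 * ((H j).pol.natDegree - i) = e + 1 := ⟨2 * ((H j).pol.natDegree - i) - 1, by omega⟩
    have h6 : (H j).pol.coeff i * ((n : F) ^ 2) ^ ((H j).pol.natDegree - i) =
        ((n : F) * (H j).pol.coeff i) * (n : F) ^ e := by
      rw [← pow_mul, he, pow_succ]
      ring
    rw [h6]
    exact h5.mul (hnI.pow e)
  · rw [hi, Nat.sub_self, pow_zero, mul_one]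
    have := (H j).monic.coeff_natDegree
    rw [this]
    exact isIntegral_one
  · rw [Polynomial.coeff_eq_zero_of_natDegree_lt hi, zero_mul]
    exact isIntegral_zero

end nf

end Pool.Agent.Q161.ESJ
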