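import Pool.Agent.Q161.ESJ.Goal2
import Pool.Agent.Q79.ESJ.SGP
import Pool.Agent.Q121.ESJ.GRPJ
import Pool.Agent.Q26.ESJ.KDJ
import Pool.Agent.Q211.ESJ.Kij
import Pool.Agent.Q151.ESJ.Shaj
import Pool.Agent.Q162.ESJ.Inr
import Pool.Agent.Q151.ESJ.J3E
import Pool.Agent.Q149.ESJ.GDJ
import Pool.Agent.Q149.ESJ.MQJ
import Pool.Agent.Q285.ESJ.Cmp
import Pool.Agent.Q285.ESJ.Semj
import Pool.Agent.Q237.ESJ.SCJ

/-! # Project ESJ: assembly (up to `S_KLJ`, `S_J3`, `S_SYMJ`)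

Written by helper161 with helpers 26, 79, 121, 149, 150, 151, 162, 208, 211, 237, 285, on top of project ESG. -/

set_option autoImplicit false

namespace Pool.Agent.Q161.ESJ

theorem t_sgp : S_SGP := Pool.Agent.Q79.ESJ.sgp
theorem t_grpj : S_GRPJ := Pool.Agent.Q121.ESJ.grpj
theorem t_kdj : S_KDJ := Pool.Agent.Q26.ESJ.kdj t_sgp
theorem t_kij : S_KIJ := Pool.Agent.Q211.ESJ.kij t_sgp
theorem t_shaj' (h : S_KLJ) : S_SHAJ := Pool.Agent.Q151.ESJ.shaj t_kdj t_kij h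
theorem t_inr : S_INR := Pool.Agent.Q162.ESJ.Inr.inr
theorem t_j3e : S_J3E := Pool.Agent.Q151.ESJ.j3e
theorem t_cmp : S_CMP := Pool.Agent.Q285.ESJ.Cmp.cmp
theorem t_gdj' (h : S_J3) : S_GDJ := Pool.Agent.Q149.ESJ.gdj h t_j3e t_cmp
theorem t_mqj : S_MQJ := Pool.Agent.Q149.ESJ.mqj
theorem t_semj : S_SEMJ := Pool.Agent.Q285.ESJ.Semj.semj t_sgp
theorem t_scj : S_SCJ := Pool.Agent.Q237.ESJ.scj

end Pool.Agent.Q161.ESJ
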