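import Mathlib
import Pool.Agent.Y723.HJ.Map

/-!
# The Jacobian of `y² = h(x)` over a number field, its quadratic twists and its Tate-Shafarevich group

`h` is a monic polynomial of odd degree `n` over the field `F`. The curve `y² = h(x)` has one point at
infinity, which is rational. For an algebraically closed field `L ⊇ F` (if `h` has no multiple roots in `L`) the
group of the points of the Jacobian over `L` is the group of the divisor classes of degree zero of the projective
curve, which is the class group of the ring `L[x, y] / (y² - h(x))` of the functions that are regular outside of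
the point at infinity.
-/

set_option autoImplicit false

namespace Pool.Agent.Q161.ESJ

open Polynomial NumberField IsDedekindDomain

/-- a monic polynomial of odd degree over the field `F`; it stands for the curve `y² = h(x)` -/
structure HP (F : Type) [Field F] : Type where
  pol : F[X]
  monic : pol.Monic
  odd : Odd pol.natDegree

section field

variable {F : Type} [Field F]

/-- the quadratic twist by `D`: the polynomial `D^n h(x/D)`, whose zeros are `D` times the zeros of `h`; the
curve `y² = D^n h(x/D)` is isomorphic to `D y² = h(x)` (for `D ≠ 0`) -/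
noncomputable def HP.twist (H : HP F) (D : F) : HP F where
  pol := H.pol.scaleRoots D
  monic := (Polynomial.monic_scaleRoots_iff D).2 H.monic
  odd := by rw [Polynomial.natDegree_scaleRoots]; exact H.odd

/-- `h` as a polynomial over the extension `L` of `F` -/
noncomputable def pol (H : HP F) (L : Type) [Field L] [Algebra F L] : L[X] := H.pol.map (algebraMap F L)

instance instOddM (H : HP F) (L : Type) [Field L] [Algebra F L] : Pool.Agent.Y723.HJ.OddM (pol H L) where
  monic := H.monic.map _
  odd := by
    unfold pol
    rw [H.monic.natDegree_map]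
    exact H.odd

variable (H : HP F)

/-- The ring `L[x, y] / (y² - h(x))`, of the elements `p + q y` with `p`, `q` in `L[x]`, and
`y * y = h(x) + 0 * y`. -/
def CoordRing (L : Type) [Field L] [Algebra F L] : Type := QuadraticAlgebra L[X] (pol H L) 0

noncomputable instance instCommRing (L : Type) [Field L] [Algebra F L] : CommRing (CoordRing H L) :=
  QuadraticAlgebra.instCommRing

instance instIsDomain (L : Type) [Field L] [Algebra F L] : IsDomain (CoordRing H L) :=
  inferInstanceAs (IsDomain (Pool.Agent.Y723.HJ.CR (pol H L)))

/-- the map of the coordinate rings given by a homomorphism of extensions of `F`: `p + q y ↦ φ(p) + φ(q) y` -/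
noncomputable def coordMap {L M : Type} [Field L] [Algebra F L] [Field M] [Algebra F M] (φ : L →ₐ[F] M)
    (z : CoordRing H L) : CoordRing H M :=
  (⟨(QuadraticAlgebra.re z).map (φ : L →+* M), (QuadraticAlgebra.im z).map (φ : L →+* M)⟩ :
      QuadraticAlgebra M[X] (pol H M) 0)

lemma pol_map {L M : Type} [Field L] [Algebra F L] [Field M] [Algebra F M] (φ : L →ₐ[F] M) :
    (pol H L).map (φ : L →+* M) = pol H M := by
  unfold pol
  rw [Polynomial.map_map, φ.comp_algebraMap]

lemma coordMap_zero {L M : Type} [Field L] [Algebra F L] [Field M] [Algebra F M] (φ : L →ₐ[F] M) :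
    coordMap H φ 0 = 0 :=
  map_zero (Pool.Agent.Y723.HJ.mapR (φ : L →+* M) (pol_map H φ))

lemma coordMap_one {L M : Type} [Field L] [Algebra F L] [Field M] [Algebra F M] (φ : L →ₐ[F] M) :
    coordMap H φ 1 = 1 :=
  map_one (Pool.Agent.Y723.HJ.mapR (φ : L →+* M) (pol_map H φ))

lemma coordMap_add {L M : Type} [Field L] [Algebra F L] [Field M] [Algebra F M] (φ : L →ₐ[F] M)
    (z w : CoordRing H L) : coordMap H φ (z + w) = coordMap H φ z + coordMap H φ w :=
  map_add (Pool.Agent.Y723.HJ.mapR (φ : L →+* M) (pol_map H φ)) z w

lemma coordMap_mul {L M : Type} [Field L] [Algebra F L] [Field M] [Algebra F M] (φ : L →ₐ[F] M)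
    (z w : CoordRing H L) : coordMap H φ (z * w) = coordMap H φ z * coordMap H φ w :=
  map_mul (Pool.Agent.Y723.HJ.mapR (φ : L →+* M) (pol_map H φ)) z w

/-- `coordMap` as a homomorphism -/
noncomputable def ringMap {L M : Type} [Field L] [Algebra F L] [Field M] [Algebra F M] (φ : L →ₐ[F] M) :
    CoordRing H L →+* CoordRing H M :=
  ⟨⟨⟨coordMap H φ, coordMap_one H φ⟩, coordMap_mul H φ⟩, coordMap_zero H φ, coordMap_add H φ⟩

lemma ringMap_inj {L M : Type} [Field L] [Algebra F L] [Field M] [Algebra F M] (φ : L →ₐ[F] M) :
    Function.Injective (ringMap H φ) := Pool.Agent.Y723.HJ.mapR_inj (φ : L →+* M) (pol_map H φ)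

/-- The points of the Jacobian of `y² = h(x)` over the algebraically closed field `L ⊇ F`: the
class group of the coordinate ring of the affine curve. -/
def Jac (L : Type) [Field L] [Algebra F L] : Type := ClassGroup (CoordRing H L)

/-- the group of the points is written additively -/
noncomputable instance instAddCommGroup (L : Type) [Field L] [Algebra F L] : AddCommGroup (Jac H L) :=
  Additive.addCommGroup (α := ClassGroup (CoordRing H L))

/-- the map of the points given by a homomorphism of extensions of `F` (extension of ideals) -/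
noncomputable def pointMap {L M : Type} [Field L] [Algebra F L] [Field M] [Algebra F M] (φ : L →ₐ[F] M)
    (P : Jac H L) : Jac H M :=
  letI : Algebra (CoordRing H L) (CoordRing H M) := (ringMap H φ).toAlgebra
  haveI : FaithfulSMul (CoordRing H L) (CoordRing H M) :=
    (faithfulSMul_iff_algebraMap_injective _ _).2 (ringMap_inj H φ)
  ClassGroup.extendedHom (CoordRing H L) (CoordRing H M) P

lemma pointMap_add {L M : Type} [Field L] [Algebra F L] [Field M] [Algebra F M] (φ : L →ₐ[F] M)
    (P Q : Jac H L) : pointMap H φ (P + Q) = pointMap H φ P + pointMap H φ Q :=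
  letI : Algebra (CoordRing H L) (CoordRing H M) := (ringMap H φ).toAlgebra
  haveI : FaithfulSMul (CoordRing H L) (CoordRing H M) :=
    (faithfulSMul_iff_algebraMap_injective _ _).2 (ringMap_inj H φ)
  map_mul (ClassGroup.extendedHom (CoordRing H L) (CoordRing H M)) _ _

/-- the map as a homomorphism (for the proofs) -/
noncomputable def pointHom {L M : Type} [Field L] [Algebra F L] [Field M] [Algebra F M] (φ : L →ₐ[F] M) :
    Jac H L →+ Jac H M :=
  AddMonoidHom.mk' (pointMap H φ) (pointMap_add H φ)

lemma pointMap_zero {L M : Type} [Field L] [Algebra F L] [Field M] [Algebra F M] (φ : L →ₐ[F] M) :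
    pointMap H φ 0 = 0 :=
  map_zero (pointHom H φ)

lemma pointMap_neg {L M : Type} [Field L] [Algebra F L] [Field M] [Algebra F M] (φ : L →ₐ[F] M)
    (P : Jac H L) : pointMap H φ (-P) = -pointMap H φ P :=
  map_neg (pointHom H φ) P

/-- the absolute Galois group of `K` -/
abbrev GF (K : Type) [Field K] : Type := AlgebraicClosure K ≃ₐ[K] AlgebraicClosure K

/-- the action of the absolute Galois group of an extension `K` of `F` on the points of the Jacobian over the
algebraic closure of `K` -/
noncomputable def act {K : Type} [Field K] [Algebra F K] (σ : GF K) (P : Jac H (AlgebraicClosure K)) :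
    Jac H (AlgebraicClosure K) :=
  pointMap H ((σ : AlgebraicClosure K →ₐ[K] AlgebraicClosure K).restrictScalars F) P

lemma act_add {K : Type} [Field K] [Algebra F K] (σ : GF K) (P Q : Jac H (AlgebraicClosure K)) :
    act H σ (P + Q) = act H σ P + act H σ Q :=
  pointMap_add H _ P Q

lemma act_zero {K : Type} [Field K] [Algebra F K] (σ : GF K) :
    act H σ (0 : Jac H (AlgebraicClosure K)) = 0 := pointMap_zero H _

lemma act_neg {K : Type} [Field K] [Algebra F K] (σ : GF K) (P : Jac H (AlgebraicClosure K)) :
    act H σ (-P) = -act H σ P := pointMap_neg H _ P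

/-- the points of the Jacobian over the extension `K` of `F` -/
noncomputable def JacK (K : Type) [Field K] [Algebra F K] : AddSubgroup (Jac H (AlgebraicClosure K)) where
  carrier := {P | ∀ σ : GF K, act H σ P = P}
  zero_mem' := fun σ => act_zero H σ
  add_mem' := fun {P Q} hP hQ σ => by rw [act_add, hP, hQ]
  neg_mem' := fun {P} hP σ => by rw [act_neg, hP]

/-- the quotient `J(K) / n J(K)` -/
def QuotK (K : Type) [Field K] [Algebra F K] (n : ℕ) : Type :=
  JacK H K ⧸ (nsmulAddMonoidHom n : JacK H K →+ JacK H K).range

/-- continuous (that is locally constant) 1-cocycles -/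
def IsCocycle (f : GF F → Jac H (AlgebraicClosure F)) : Prop :=
  IsLocallyConstant f ∧ ∀ σ τ, f (σ * τ) = f σ + act H σ (f τ)

/-- coboundaries `σ ↦ σ P - P` -/
def IsCoboundary (f : GF F → Jac H (AlgebraicClosure F)) : Prop := ∃ P, ∀ σ, f σ = act H σ P - P

/-- The restriction of the cocycle `f` to the absolute Galois group of the extension `K` (a completion of `F`) is a
coboundary: for every embedding `ι` of the algebraic closure of `F` in the one of `K` there is a point `P` over this
algebraic closure with `ι (f (τ|F̄)) = τ P - P` for every automorphism `τ` of the algebraic closure over `K`. -/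
def LocallyTrivial (K : Type) [Field K] [Algebra F K] (f : GF F → Jac H (AlgebraicClosure F)) : Prop :=
  ∀ ι : AlgebraicClosure F →ₐ[F] AlgebraicClosure K, ∃ P : Jac H (AlgebraicClosure K),
    ∀ (τ : GF K) (σ : GF F), (∀ x : AlgebraicClosure F, τ (ι x) = ι (σ x)) →
      pointMap H ι (f σ) = act H τ P - P

lemma LocallyTrivial.zero (K : Type) [Field K] [Algebra F K] : LocallyTrivial H K 0 :=
  fun ι => ⟨0, fun τ σ _ => by simp only [Pi.zero_apply, pointMap_zero, act_zero, sub_zero]⟩

variable {H}

lemma LocallyTrivial.add {K : Type} [Field K] [Algebra F K] {f g : GF F → Jac H (AlgebraicClosure F)}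
    (hf : LocallyTrivial H K f) (hg : LocallyTrivial H K g) : LocallyTrivial H K (f + g) := by
  intro ι
  obtain ⟨P, hP⟩ := hf ι
  obtain ⟨Q, hQ⟩ := hg ι
  refine ⟨P + Q, fun τ σ h => ?_⟩
  simp only [Pi.add_apply, pointMap_add, act_add, hP τ σ h, hQ τ σ h]
  abel

lemma LocallyTrivial.neg {K : Type} [Field K] [Algebra F K] {f : GF F → Jac H (AlgebraicClosure F)}
    (hf : LocallyTrivial H K f) : LocallyTrivial H K (-f) := by
  intro ι
  obtain ⟨P, hP⟩ := hf ι
  refine ⟨-P, fun τ σ h => ?_⟩
  simp only [Pi.neg_apply, pointMap_neg, act_neg, hP τ σ h]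
  abel

variable (H)

/-- the coboundaries -/
noncomputable def coboundaries : AddSubgroup (GF F → Jac H (AlgebraicClosure F)) where
  carrier := {f | IsCoboundary H f}
  zero_mem' := ⟨0, fun σ => by simp only [Pi.zero_apply, act_zero, sub_zero]⟩
  add_mem' := by
    rintro f g ⟨P, hP⟩ ⟨Q, hQ⟩
    refine ⟨P + Q, fun σ => ?_⟩
    simp only [Pi.add_apply, act_add, hP, hQ]
    abel
  neg_mem' := by
    rintro f ⟨P, hP⟩
    refine ⟨-P, fun σ => ?_⟩
    simp only [Pi.neg_apply, act_neg, hP]
    abel

end field

section number

variable {F : Type} [Field F] [NumberField F] (H : HP F)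

/-- cocycles that are trivial at all places of `F`: over the completions at the maximal ideals of the ring of
integers and at the archimedean places -/
def IsShaCocycle (f : GF F → Jac H (AlgebraicClosure F)) : Prop :=
  IsCocycle H f ∧ (∀ v : HeightOneSpectrum (𝓞 F), LocallyTrivial H (v.adicCompletion F) f) ∧
    ∀ v : InfinitePlace F, LocallyTrivial H v.Completion f

/-- the cocycles that are trivial at all places of `F` -/
noncomputable def shaCocycles : AddSubgroup (GF F → Jac H (AlgebraicClosure F)) where
  carrier := {f | IsShaCocycle H f}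
  zero_mem' := ⟨⟨IsLocallyConstant.const _, fun σ τ => by simp only [Pi.zero_apply, act_zero, add_zero]⟩,
    fun _ => LocallyTrivial.zero H _, fun _ => LocallyTrivial.zero H _⟩
  add_mem' := by
    rintro f g ⟨⟨hf1, hf2⟩, hf3, hf4⟩ ⟨⟨hg1, hg2⟩, hg3, hg4⟩
    refine ⟨⟨hf1.add hg1, fun σ τ => ?_⟩, fun v => (hf3 v).add (hg3 v), fun v => (hf4 v).add (hg4 v)⟩
    simp only [Pi.add_apply, hf2, hg2, act_add]
    abel
  neg_mem' := by
    rintro f ⟨⟨hf1, hf2⟩, hf3, hf4⟩
    refine ⟨⟨hf1.neg, fun σ τ => ?_⟩, fun v => (hf3 v).neg, fun v => (hf4 v).neg⟩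
    simp only [Pi.neg_apply, hf2, act_neg]
    abel

/-- The Tate-Shafarevich group of the Jacobian of `y² = h(x)` over `F`: the cocycles that
are trivial at all places modulo the coboundaries. -/
def Sha : Type := shaCocycles H ⧸ (coboundaries H).addSubgroupOf (shaCocycles H)

noncomputable instance instAddCommGroupSha : AddCommGroup (Sha H) :=
  QuotientAddGroup.Quotient.addCommGroup _

/-- the elements `c` of the Tate-Shafarevich group with `n c = 0` -/
def ShaTorsion (n : ℕ) : Type := {c : Sha H // n • c = 0}

end number

/-- `J[2]` is a semisimple Galois module: every Galois stable subgroup `W` of the group of the points of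
order dividing two has a Galois stable complement `W'` -/
def SemiTwo {F : Type} [Field F] (H : HP F) : Prop := ∀ W : AddSubgroup (Jac H (AlgebraicClosure F)),
  (∀ P ∈ W, P + P = 0 ∧ ∀ σ : GF F, act H σ P ∈ W) → ∃ W' : AddSubgroup (Jac H (AlgebraicClosure F)),
    (∀ P ∈ W', P + P = 0 ∧ ∀ σ : GF F, act H σ P ∈ W') ∧ W ⊓ W' = ⊥ ∧
      ∀ P : Jac H (AlgebraicClosure F), P + P = 0 → P ∈ W ⊔ W'

/-- `h` is irreducible over `F`, and its degree is three, or its Galois group is the full symmetric group, or
the group of the points of order two of the Jacobian is a semisimple Galois module -/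
def Admissible {F : Type} [Field F] (H : HP F) : Prop :=
  Irreducible H.pol ∧
    (H.pol.natDegree = 3 ∨ Nat.card H.pol.Gal = H.pol.natDegree.factorial ∨ SemiTwo H)

end Pool.Agent.Q161.ESJ
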