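import Pool.Agent.Q161.ESJ.Alg
import Pool.Agent.Q161.ESB.Cor
import Pool.Agent.Q161.ESN.All

/-! # Project ESJ: weighted moments of the 2-Selmer groups of all quadratic twists of Jacobians over a number field -/

set_option autoImplicit false

namespace Pool.Agent.Q161.ESJ

open Polynomial NumberField IsDedekindDomain

open scoped Classical

open Pool.Agent.Q161.ESM (Semi)
open Pool.Agent.Q161.ESN (t_vg t_kxf t_rep SqF oddNorm Gd1 VB Twists)
open Pool.Agent.Q161.ESB (wt om wt_le log_mul_le)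

/-- the modules `V` of the `H j` are semisimple -/
def SemJ {F : Type} [Field F] [NumberField F] (J : Type) [Fintype J] (H : J → HP F) : Prop :=
  ∀ (L : J → Type) [∀ j, Field (L j)] [∀ j, NumberField (L j)] [∀ j, Algebra F (L j)] (θ : (j : J) → L j),
    (∀ j, SetF (H j) (L j) (θ j)) → ∀ (K : Type) [Field K] [NumberField K] [Algebra F K] [IsGalois ℚ K],
    (∀ j, Nonempty (L j →ₐ[F] K)) → ∀ (V : Type) [AddCommGroup V] [DistribMulAction (K ≃ₐ[F] K) V]
      (cd : V →+ ((j : J) → (L j →ₐ[F] K) → ZMod 2)), VB cd → Semi (K ≃ₐ[F] K) V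

theorem SemJ.twist {F : Type} [Field F] [NumberField F] {J : Type} [Fintype J] {H : J → HP F} (h : SemJ J H)
    {D : F} (hD : D ≠ 0) : SemJ J (fun j => (H j).twist D) := by
  intro L _ _ _ θ hθ K _ _ _ _ hK V _ _ cd hcd
  refine h L (fun j => algebraMap F (L j) D⁻¹ * θ j) (fun j => ?_) K hK V cd hcd
  have h1 := (hθ j).twist (inv_ne_zero hD)
  rwa [twist_twist, mul_inv_cancel₀ hD, twist_one] at h1

section main

variable (hCNT : Pool.Agent.Q161.ESB.S_CNT) (hSHAJ : S_SHAJ) (hGDJ : S_GDJ) (hSCJ : S_SCJ)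

include hSCJ in
theorem card_twist {F : Type} [Field F] [NumberField F] (H : HP F) (D : F) {s : F} (hs : s ≠ 0) :
    Nat.card (Sel2J (H.twist (D * s ^ 2))) = Nat.card (Sel2J (H.twist D)) := by
  have h := (hSCJ F (H.twist D) s hs).1
  rwa [twist_twist] at h

include hSCJ in
theorem card_quot {F : Type} [Field F] [NumberField F] (H : HP F) (D : F) {s : F} (hs : s ≠ 0) :
    Nat.card (QuotK (H.twist (D * s ^ 2)) F 2) = Nat.card (QuotK (H.twist D) F 2) := by
  have h := (hSCJ F (H.twist D) s hs).2.1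
  rwa [twist_twist] at h

include hSCJ in
theorem card_sha {F : Type} [Field F] [NumberField F] (H : HP F) (D : F) {s : F} (hs : s ≠ 0) :
    Nat.card (ShaTorsion (H.twist (D * s ^ 2)) 2) = Nat.card (ShaTorsion (H.twist D) 2) := by
  have h := (hSCJ F (H.twist D) s hs).2.2
  rwa [twist_twist] at h

include hCNT in
/-- the set of the `δ` which satisfy the local conditions is finite, modulo squares -/
theorem bound_one {F : Type} [Field F] [NumberField F] {H : HP F} {L : Type} [Field L] [NumberField L]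
    [Algebra F L] {th : 𝓞 L} (hs : SetF H L (th : L)) {K : Type} [Field K] [NumberField K] [Algebra F K]
    [IsGalois ℚ K] (hK : Nonempty (L →ₐ[F] K)) (V : Type) [AddCommGroup V] [Fintype V]
    [DistribMulAction (K ≃ₐ[F] K) V] (cd : V →+ (Unit → (L →ₐ[F] K) → ZMod 2))
    (hcd : VB (C := Unit) (L := fun _ => L) cd) (hV : Semi (K ≃ₐ[F] K) V) (B : ℕ) (hB : B ≠ 0) (D : 𝓞 F)
    (hD : SqF B D) :
    ∃ N : ℕ, ∀ T : Finset L, (∀ δ ∈ T, δ ≠ 0 ∧ Gd1 F K th B D δ) →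
      (∀ δ ∈ T, ∀ δ' ∈ T, δ ≠ δ' → ¬ IsSquare (δ * δ')) → T.card ≤ N := by
  obtain ⟨C0, hC0, hmain⟩ := hCNT 1 Unit F K (fun _ => L) (fun _ => th) (fun _ => dat_of hs K hK) V cd hcd hV
    B hB le_rfl
  obtain ⟨X, hX, hDX⟩ : ∃ X : ℝ, 1 ≤ X ∧ ((Ideal.absNorm (Ideal.span {D}) : ℕ) : ℝ) ≤ X :=
    ⟨max 1 _, le_max_left _ _, le_max_right _ _⟩
  refine ⟨⌊C0 * X⌋₊, fun T hT hT2 => ?_⟩
  have h1 := hmain (fun _ D' => if D' = D then T else ∅) (by
    intro _ D' δ hδ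
    by_cases hDD : D' = D
    · simp only [hDD, if_true] at hδ ⊢
      exact hT δ hδ
    · simp only [hDD, if_false, Finset.notMem_empty] at hδ) (by
    intro _ D' δ hδ δ' hδ' hne
    by_cases hDD : D' = D
    · simp only [hDD, if_true] at hδ hδ'
      exact hT2 δ hδ δ' hδ' hne
    · simp only [hDD, if_false, Finset.notMem_empty] at hδ) X {D} hX (by
    intro D' hD'
    rw [Finset.mem_singleton.1 hD']
    exact ⟨hD, hDX⟩) (by
    intro D1 h1 D2 h2 hne
    exact absurd ((Finset.mem_singleton.1 h1).trans (Finset.mem_singleton.1 h2).symm) hne)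
  apply Nat.le_floor
  rw [Finset.sum_singleton] at h1
  simp only [if_true, Finset.prod_const, Finset.card_univ, Fintype.card_unit, pow_one, one_pow, one_mul,
    Nat.sub_self, pow_zero, mul_one] at h1
  exact h1

include hCNT hSHAJ hGDJ hSCJ in
/-- the 2-Selmer groups are finite -/
theorem fin_sel {F : Type} [Field F] [NumberField F] (H : HP F) (hI : Intg H) (h : Irreducible H.pol)
    (hss : SemJ Unit (fun _ => H)) (D : F) (hD : D ≠ 0) : Finite (Sel2J (H.twist D)) := by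
  obtain ⟨L, i1, i2, i3, th, hs⟩ := exists_L H hI h
  obtain ⟨K, k1, k2, k3, k4, hemb⟩ := t_kxf Unit F (fun _ => L)
  obtain ⟨V, v1, v2, v3, cd, hcd⟩ := t_vg Unit F K (fun _ => L)
  have hsemi : Semi (K ≃ₐ[F] K) V := hss (fun _ => L) (fun _ => (th : L)) (fun _ => hs) K hemb V cd hcd
  obtain ⟨B, hB0, hB⟩ := hGDJ F L H th hs K (hemb ())
  obtain ⟨B1, C1, hB1, hC1, hrep⟩ := t_rep F
  obtain ⟨E, s, hs0, hE, hsq, -⟩ := hrep D hD
  have hsq' : SqF (B * B1) E := hsq.mono (dvd_mul_left _ _)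
  have hE0 : (E : F) ≠ 0 := by
    rw [hE]
    exact mul_ne_zero hD (pow_ne_zero _ hs0)
  obtain ⟨N, hN⟩ := bound_one hCNT hs (hemb ()) V cd hcd hsemi (B * B1) (mul_ne_zero hB0 hB1) E hsq'
  obtain ⟨Φ, hΦ1, hΦ2⟩ := hSHAJ F (H.twist (E : F)) L _ (hs.twist hE0)
  have hinj : Function.Injective Φ := fun x y hxy => hΦ2 x y (by
    rw [hxy]
    exact ⟨Φ y, rfl⟩)
  have hfin : Finite (Sel2J (H.twist (E : F))) := by
    by_contra hinf
    rw [not_finite_iff_infinite] at hinf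
    obtain ⟨T, hT⟩ := Infinite.exists_subset_card_eq (Sel2J (H.twist (E : F))) (N + 1)
    have h1 := hN (T.image Φ) (by
      intro δ hδ
      obtain ⟨x, -, rfl⟩ := Finset.mem_image.1 hδ
      exact ⟨(hΦ1 x).1, hB (B * B1) (dvd_mul_right _ _) (mul_ne_zero hB0 hB1) E hsq' (Φ x) (hΦ1 x).1
        (hΦ1 x).2⟩) (by
      intro δ hδ δ' hδ' hne hsq
      obtain ⟨x, -, rfl⟩ := Finset.mem_image.1 hδ
      obtain ⟨y, -, rfl⟩ := Finset.mem_image.1 hδ'
      exact hne (congrArg Φ (hΦ2 x y hsq)))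
    rw [Finset.card_image_of_injective _ hinj, hT] at h1
    omega
  have h2 := card_twist hSCJ H D hs0
  rw [← hE] at h2
  have h3 : Nat.card (Sel2J (H.twist (E : F))) ≠ 0 := Nat.card_ne_zero.2 ⟨⟨0⟩, hfin⟩
  rw [h2] at h3
  exact (Nat.card_ne_zero.1 h3).2

include hCNT hSHAJ hGDJ hSCJ in
/-- the weighted joint moments of the 2-Selmer groups of all quadratic twists, integral coefficients -/
theorem goalW (M : ℕ) (hM : 1 ≤ M) (J : Type) [Fintype J] (F : Type) [Field F] [NumberField F] (H : J → HP F)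
    (hI : ∀ j, Intg (H j)) (h : ∀ j, Irreducible (H j).pol) (hss : SemJ J H)
    (hfin : ∀ (j : J) (D : F), D ≠ 0 → Finite (Sel2J ((H j).twist D))) :
    ∃ C0 : ℝ, 0 < C0 ∧ ∀ X : ℝ, 1 ≤ X → ∀ 𝒟 : Finset F, Twists X 𝒟 →
      ((∑ D ∈ 𝒟, M ^ wt D * ∏ j, Nat.card (Sel2J ((H j).twist D)) : ℕ) : ℝ) ≤
        C0 * X * (1 + Real.log X) ^ (M - 1) := by
  choose L i1 i2 i3 th hc using fun j => exists_L (H j) (hI j) (h j)
  obtain ⟨K, k1, k2, k3, k4, hemb⟩ := t_kxf J F L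
  obtain ⟨V, v1, v2, v3, cd, hcd⟩ := t_vg J F K L
  have hsemi : Semi (K ≃ₐ[F] K) V := hss L (fun j => (th j : L j)) hc K hemb V cd hcd
  choose B hB0 hB using fun j => hGDJ F (L j) (H j) (th j) (hc j) K (hemb j)
  obtain ⟨B1, C1, hB1, hC1, hrep⟩ := t_rep F
  obtain ⟨BB, hBB⟩ : ∃ BB, BB = (∏ j, B j) * B1 := ⟨_, rfl⟩
  have hBB0 : BB ≠ 0 := by
    rw [hBB]
    exact mul_ne_zero (Finset.prod_ne_zero_iff.2 fun j _ => hB0 j) hB1
  have hBd : ∀ j, B j ∣ BB := fun j => by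
    rw [hBB]
    exact (Finset.dvd_prod_of_mem B (Finset.mem_univ j)).mul_right _
  have hB1d : B1 ∣ BB := by
    rw [hBB]
    exact dvd_mul_left _ _
  obtain ⟨C0, hC0, hmain⟩ := hCNT M J F K L th (fun j => dat_of (hc j) K (hemb j)) V cd hcd hsemi BB hBB0 hM
  have hΦ := fun (j : J) (E : 𝓞 F) (hE : (E : F) ≠ 0) => hSHAJ F ((H j).twist (E : F)) (L j) _ ((hc j).twist hE)
  let Φ : (j : J) → (E : 𝓞 F) → (hE : (E : F) ≠ 0) → Sel2J ((H j).twist (E : F)) → L j :=
    fun j E hE => (hΦ j E hE).choose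
  have hΦs := fun (j : J) (E : 𝓞 F) (hE : (E : F) ≠ 0) => (hΦ j E hE).choose_spec
  have hinj : ∀ (j : J) (E : 𝓞 F) (hE : (E : F) ≠ 0), Function.Injective (Φ j E hE) := by
    intro j E hE x y hxy
    apply (hΦs j E hE).2
    change IsSquare (Φ j E hE x * Φ j E hE y)
    rw [hxy]
    exact ⟨Φ j E hE y, rfl⟩
  let S : (j : J) → 𝓞 F → Finset (L j) := fun j E => if hE : (E : F) ≠ 0 then
    (@Finset.univ _ (@Fintype.ofFinite _ (hfin j E hE))).image (Φ j E hE) else ∅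
  have hScard : ∀ (j : J) (E : 𝓞 F), (E : F) ≠ 0 →
      (S j E).card = Nat.card (Sel2J ((H j).twist (E : F))) := by
    intro j E hE
    simp only [S, dif_pos hE]
    rw [Finset.card_image_of_injective _ (hinj j E hE)]
    rw [@Nat.card_eq_fintype_card _ (@Fintype.ofFinite _ (hfin j E hE))]
    rfl
  -- the representatives
  let r : F → 𝓞 F := fun D => if hD : D ≠ 0 then (hrep D hD).choose else 0
  have hr : ∀ D : F, D ≠ 0 → ∃ s : F, s ≠ 0 ∧ (r D : F) = D * s ^ 2 ∧ SqF B1 (r D) ∧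
      ((Ideal.absNorm (Ideal.span {r D}) : ℕ) : ℝ) ≤ C1 * (oddNorm D : ℝ) := by
    intro D hD
    simp only [r, dif_pos hD]
    exact (hrep D hD).choose_spec
  have hr0 : ∀ D : F, D ≠ 0 → (r D : F) ≠ 0 := by
    intro D hD
    obtain ⟨s, hs, hE, -⟩ := hr D hD
    rw [hE]
    exact mul_ne_zero hD (pow_ne_zero _ hs)
  have hlog : 0 ≤ Real.log (max C1 1) := Real.log_nonneg (le_max_right _ _)
  refine ⟨C0 * max C1 1 * (1 + Real.log (max C1 1)) ^ (M - 1), by positivity, fun X hX 𝒟 h𝒟 => ?_⟩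
  have hns := h𝒟.dist
  have hrsq : ∀ D ∈ 𝒟, ∀ D' ∈ 𝒟, D ≠ D' → ¬ IsSquare ((r D : F) * (r D' : F)) := by
    intro D hD D' hD' hne hsq
    obtain ⟨s, hs, hDs, -⟩ := hr D (h𝒟.ne D hD)
    obtain ⟨s', hs', hDs', -⟩ := hr D' (h𝒟.ne D' hD')
    obtain ⟨q, hq⟩ := hsq
    apply hns D hD D' hD' hne
    refine ⟨q / (s * s'), ?_⟩
    rw [hDs, hDs'] at hq
    field_simp
    linear_combination hq
  have hrinj : Set.InjOn r (𝒟 : Set F) := by
    intro D hD D' hD' hrr
    by_contra hne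
    apply hrsq D hD D' hD' hne
    rw [hrr]
    exact ⟨_, rfl⟩
  let Fs : (j : J) → 𝓞 F → Finset (L j) := fun j E => if E ∈ 𝒟.image r then S j E else ∅
  have hF := hmain Fs (by
    intro j E δ hδ
    by_cases hE : E ∈ 𝒟.image r
    · simp only [Fs, if_pos hE] at hδ
      obtain ⟨D, hD, rfl⟩ := Finset.mem_image.1 hE
      have hE0 := hr0 D (h𝒟.ne D hD)
      simp only [S, dif_pos hE0, Finset.mem_image] at hδ
      obtain ⟨x, -, rfl⟩ := hδ
      obtain ⟨s, hs, hDs, hsq, -⟩ := hr D (h𝒟.ne D hD)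
      have h5 := (hΦs j (r D) hE0).1 x
      exact ⟨h5.1, hB j BB (hBd j) hBB0 (r D) (hsq.mono hB1d) _ h5.1 h5.2⟩
    · simp only [Fs, if_neg hE] at hδ
      exact absurd hδ (Finset.notMem_empty _)) (by
    intro j E δ hδ δ' hδ' hne hsq
    by_cases hE : E ∈ 𝒟.image r
    · simp only [Fs, if_pos hE] at hδ hδ'
      obtain ⟨D, hD, rfl⟩ := Finset.mem_image.1 hE
      have hE0 := hr0 D (h𝒟.ne D hD)
      simp only [S, dif_pos hE0, Finset.mem_image] at hδ hδ'
      obtain ⟨x, -, rfl⟩ := hδ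
      obtain ⟨y, -, rfl⟩ := hδ'
      exact hne (congrArg _ ((hΦs j (r D) hE0).2 x y hsq))
    · simp only [Fs, if_neg hE] at hδ
      exact absurd hδ (Finset.notMem_empty _)) (max C1 1 * X) (𝒟.image r) (by
    calc (1 : ℝ) = 1 * 1 := (one_mul 1).symm
      _ ≤ max C1 1 * X := mul_le_mul (le_max_right _ _) hX zero_le_one (by positivity)) (by
    intro E hE
    obtain ⟨D, hD, rfl⟩ := Finset.mem_image.1 hE
    obtain ⟨s, hs, hDs, hsq, hle⟩ := hr D (h𝒟.ne D hD)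
    refine ⟨hsq.mono hB1d, hle.trans ?_⟩
    exact mul_le_mul (le_max_left _ _) (h𝒟.norm D hD) (Nat.cast_nonneg _) (by positivity)) (by
    intro E hE E' hE' hne
    obtain ⟨D, hD, rfl⟩ := Finset.mem_image.1 hE
    obtain ⟨D', hD', rfl⟩ := Finset.mem_image.1 hE'
    exact hrsq D hD D' hD' fun h => hne (congrArg r h))
  have hlX := Real.log_nonneg hX
  have h9 : (1 + Real.log (max C1 1 * X)) ^ (M - 1) ≤
      (1 + Real.log (max C1 1)) ^ (M - 1) * (1 + Real.log X) ^ (M - 1) := by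
    rw [← mul_pow]
    refine pow_le_pow_left₀ ?_ (log_mul_le (le_max_right _ _) hX) _
    have : 0 ≤ Real.log (max C1 1 * X) := Real.log_nonneg (by
      calc (1 : ℝ) = 1 * 1 := (one_mul 1).symm
        _ ≤ max C1 1 * X := mul_le_mul (le_max_right _ _) hX zero_le_one (by positivity))
    linarith
  have h10 : C0 * (max C1 1 * X) * (1 + Real.log (max C1 1 * X)) ^ (M - 1) ≤
      C0 * max C1 1 * (1 + Real.log (max C1 1)) ^ (M - 1) * X * (1 + Real.log X) ^ (M - 1) := by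
    have h11 : (0 : ℝ) ≤ C0 * (max C1 1 * X) := by positivity
    calc C0 * (max C1 1 * X) * (1 + Real.log (max C1 1 * X)) ^ (M - 1) ≤ C0 * (max C1 1 * X) *
          ((1 + Real.log (max C1 1)) ^ (M - 1) * (1 + Real.log X) ^ (M - 1)) :=
          mul_le_mul_of_nonneg_left h9 h11
      _ = _ := by ring
  refine le_trans ?_ (le_trans hF h10)
  rw [Nat.cast_le, Finset.sum_image hrinj]
  refine Finset.sum_le_sum fun D hD => ?_
  obtain ⟨s, hs, hDs, hsq, -⟩ := hr D (h𝒟.ne D hD)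
  refine Nat.mul_le_mul (Nat.pow_le_pow_right hM (wt_le hs hDs hsq.1)) (le_of_eq ?_)
  refine Finset.prod_congr rfl fun j _ => ?_
  have hmem : r D ∈ 𝒟.image r := Finset.mem_image_of_mem r hD
  simp only [Fs, if_pos hmem]
  rw [hScard j (r D) (hr0 D (h𝒟.ne D hD)), hDs, card_twist hSCJ (H j) D hs]

end main

end Pool.Agent.Q161.ESJ
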