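import Pool.Agent.Q161.ESJ.Goal
import Pool.Agent.Q161.ESG.Jac

/-! # Project ESJ: the weighted moments for all admissible polynomials -/

set_option autoImplicit false

namespace Pool.Agent.Q161.ESJ

open Polynomial NumberField IsDedekindDomain Finset

open scoped Classical

open Pool.Agent.Q161.ESM (Semi)
open Pool.Agent.Q161.ESN (Twists VB)
open Pool.Agent.Q161.ESB (wt)

section alg

variable {F : Type} [Field F] [NumberField F]

theorem exists_L0 (H : HP F) (h : Irreducible H.pol) :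
    ∃ (L : Type) (_ : Field L) (_ : NumberField L) (_ : Algebra F L) (θ : L), SetF H L θ := by
  obtain ⟨f, hf⟩ : ∃ f, f = H.pol := ⟨_, rfl⟩
  have : Fact (Irreducible f) := ⟨by rw [hf]; exact h⟩
  have hf0 : f ≠ 0 := (Fact.out (p := Irreducible f)).ne_zero
  have : Module.Finite F (AdjoinRoot f) := (AdjoinRoot.powerBasis hf0).finite
  have hNF : NumberField (AdjoinRoot f) := NumberField.of_module_finite F (AdjoinRoot f)
  have hr : aeval (AdjoinRoot.root f) f = 0 := AdjoinRoot.aeval_eq f ▸ AdjoinRoot.mk_self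
  refine ⟨AdjoinRoot f, inferInstance, hNF, inferInstance, AdjoinRoot.root f, h, ?_, ?_⟩
  · rw [← hf]
    exact hr
  · rw [(AdjoinRoot.powerBasis hf0).finrank, AdjoinRoot.powerBasis_dim, hf]

theorem irr_twist {H : HP F} (h : Irreducible H.pol) {D : F} (hD : D ≠ 0) : Irreducible (H.twist D).pol := by
  obtain ⟨L, i1, i2, i3, θ, hs⟩ := exists_L0 H h
  exact (hs.twist hD).irr

theorem sep_twist {H : HP F} (h : Irreducible H.pol) {D : F} (hD : D ≠ 0) : (H.twist D).pol.Separable :=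
  (irr_twist h hD).separable

end alg

/-- all that is used about the descent -/
structure Desc : Prop where
  cnt : Pool.Agent.Q161.ESB.S_CNT
  sha : S_SHAJ
  gd : S_GDJ
  sc : S_SCJ
  sem : S_SEMJ
  sym : S_SYMJ
  grp : S_GRPJ

variable (hD0 : Desc)

include hD0

theorem adm_semi {F : Type} [Field F] [NumberField F] {H : HP F} (h : Admissible H) : SemiTwo H := by
  rcases h.2 with h1 | h1 | h1
  · exact hD0.sym F H h.1 (Or.inl h1)
  · exact hD0.sym F H h.1 (Or.inr h1)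
  · exact h1

theorem semJ {F : Type} [Field F] [NumberField F] {J : Type} [Fintype J] {H : J → HP F}
    (h : ∀ j, Admissible (H j)) : SemJ J H := by
  intro L _ _ _ θ hθ K _ _ _ _ hK V _ _ cd hcd
  exact hD0.sem J F H L θ hθ (fun j => adm_semi hD0 (h j)) K hK V cd hcd

/-- the 2-Selmer groups are finite -/
theorem fin_sel' {F : Type} [Field F] [NumberField F] {H : HP F} (h : Admissible H) {D : F} (hD : D ≠ 0) :
    Finite (Sel2J (H.twist D)) := by
  obtain ⟨u, hu, -, hI⟩ := exists_scale Unit (fun _ => H)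
  have hu2 : u ^ 2 ≠ 0 := pow_ne_zero _ hu
  have h1 := fin_sel hD0.cnt hD0.sha hD0.gd hD0.sc (H.twist (u ^ 2)) (hI ()) (irr_twist h.1 hu2)
    ((semJ hD0 (J := Unit) (H := fun _ => H) fun _ => h).twist hu2) D hD
  rw [twist_twist, mul_comm] at h1
  have h2 := card_twist hD0.sc H D hu
  have h3 : Nat.card (Sel2J (H.twist (D * u ^ 2))) ≠ 0 := Nat.card_ne_zero.2 ⟨⟨0⟩, h1⟩
  rw [h2] at h3
  exact (Nat.card_ne_zero.1 h3).2

/-- the weighted joint moments of the 2-Selmer groups of all quadratic twists -/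
theorem goalW' (M : ℕ) (hM : 1 ≤ M) (J : Type) [Fintype J] (F : Type) [Field F] [NumberField F] (H : J → HP F)
    (h : ∀ j, Admissible (H j)) :
    ∃ C0 : ℝ, 0 < C0 ∧ ∀ X : ℝ, 1 ≤ X → ∀ 𝒟 : Finset F, Twists X 𝒟 →
      ((∑ D ∈ 𝒟, M ^ wt D * ∏ j, Nat.card (Sel2J ((H j).twist D)) : ℕ) : ℝ) ≤
        C0 * X * (1 + Real.log X) ^ (M - 1) := by
  obtain ⟨u, hu, -, hI⟩ := exists_scale J H
  have hu2 : u ^ 2 ≠ 0 := pow_ne_zero _ hu
  obtain ⟨C0, hC0, hmain⟩ := goalW hD0.cnt hD0.sha hD0.gd hD0.sc M hM J F (fun j => (H j).twist (u ^ 2)) hI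
    (fun j => irr_twist (h j).1 hu2) ((semJ hD0 h).twist hu2) (fun j D hD => by
      have h1 := fin_sel' hD0 (h j) (mul_ne_zero hu2 hD)
      rwa [← twist_twist] at h1)
  refine ⟨C0, hC0, fun X hX 𝒟 h𝒟 => ?_⟩
  have h1 := hmain X hX 𝒟 h𝒟
  have h2 : ∀ (j : J) (D : F), Nat.card (Sel2J (((H j).twist (u ^ 2)).twist D)) =
      Nat.card (Sel2J ((H j).twist D)) := by
    intro j D
    rw [twist_twist, mul_comm]
    exact card_twist hD0.sc (H j) D hu
  simp only [h2] at h1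
  exact h1

/-- the weighted joint moments -/
theorem momentsW (M : ℕ) (hM : 1 ≤ M) (J : Type) [Fintype J] (F : Type) [Field F] [NumberField F] (H : J → HP F)
    (h : ∀ j, Admissible (H j)) (k : ℕ) :
    ∃ C : ℝ, 0 < C ∧ ∀ X : ℝ, 1 ≤ X → ∀ 𝒟 : Finset F, Twists X 𝒟 →
      ∑ D ∈ 𝒟, (M : ℝ) ^ wt D * (∏ j, (Nat.card (Sel2J ((H j).twist D)) : ℝ)) ^ k ≤
        C * X * (1 + Real.log X) ^ (M - 1) := by
  obtain ⟨C, hC, h2⟩ := goalW' hD0 M hM (J × Fin k) F (fun i => H i.1) (fun i => h i.1)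
  refine ⟨C, hC, fun X hX 𝒟 h𝒟 => ?_⟩
  have h3 := h2 X hX 𝒟 h𝒟
  rw [Nat.cast_sum] at h3
  refine le_trans (sum_le_sum fun D hD => le_of_eq ?_) h3
  rw [Nat.cast_mul, Nat.cast_pow, Fintype.prod_prod_type, Nat.cast_prod, ← prod_pow]
  congr 1
  refine prod_congr rfl fun j _ => ?_
  have e : ∀ n : ℕ, (∏ _x : Fin k, n) = n ^ k := fun n => by simp
  rw [← Nat.cast_pow]
  exact congrArg Nat.cast (e (Nat.card (Sel2J ((H j).twist D)))).symm

/-- the groups `J(F)/2` and `Ш[2]` -/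
theorem grp_le {F : Type} [Field F] [NumberField F] {H : HP F} (h : Admissible H) {D : F} (hD : D ≠ 0) :
    Finite (QuotK (H.twist D) F 2) ∧ Finite (ShaTorsion (H.twist D) 2) ∧
      Nat.card (QuotK (H.twist D) F 2) * Nat.card (ShaTorsion (H.twist D) 2) ≤
        Nat.card (Sel2J (H.twist D)) :=
  hD0.grp F (H.twist D) (sep_twist h.1 hD) (fin_sel' hD0 h hD)

/-- both orders are positive -/
theorem pos_both {F : Type} [Field F] [NumberField F] {H : HP F} (h : Admissible H) {D : F} (hD : D ≠ 0) :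
    0 < Nat.card (QuotK (H.twist D) F 2) ∧ 0 < Nat.card (ShaTorsion (H.twist D) 2) := by
  obtain ⟨h1, h2, -⟩ := grp_le hD0 h hD
  refine ⟨?_, ?_⟩
  · exact @Nat.card_pos _ (show Nonempty (JacK (H.twist D) F ⧸
      (nsmulAddMonoidHom 2 : JacK (H.twist D) F →+ JacK (H.twist D) F).range) from ⟨0⟩) h1
  · exact @Nat.card_pos _ ⟨⟨0, nsmul_zero 2⟩⟩ h2

/-- `J(F)/2` is an elementary abelian 2-group, and its dimension is at least the rank -/
theorem quot_rank {F : Type} [Field F] [NumberField F] {H : HP F} (h : Admissible H) {D : F} (hD : D ≠ 0) :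
    Nat.card (QuotK (H.twist D) F 2) = 2 ^ Nat.log 2 (Nat.card (QuotK (H.twist D) F 2)) ∧
      (AddGroup.FG (JacK (H.twist D) F) →
        Module.finrank ℤ (JacK (H.twist D) F) ≤ Nat.log 2 (Nat.card (QuotK (H.twist D) F 2))) := by
  obtain ⟨h1, -, -⟩ := grp_le hD0 h hD
  have h1' : Finite (JacK (H.twist D) F ⧸
    (nsmulAddMonoidHom 2 : JacK (H.twist D) F →+ JacK (H.twist D) F).range) := h1
  have h3 : Nat.card (QuotK (H.twist D) F 2) = 2 ^ Nat.log 2 (Nat.card (QuotK (H.twist D) F 2)) := by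
    refine Pool.Agent.Q161.ESG.two_pow (A := JacK (H.twist D) F ⧸
      (nsmulAddMonoidHom 2 : JacK (H.twist D) F →+ JacK (H.twist D) F).range) fun a => ?_
    induction a using QuotientAddGroup.induction_on with
    | H a =>
      rw [← QuotientAddGroup.mk_add, QuotientAddGroup.eq_zero_iff]
      exact ⟨a, two_nsmul a⟩
  refine ⟨h3, fun hFG => ?_⟩
  have h4 : 2 ^ Module.finrank ℤ (JacK (H.twist D) F) ≤ Nat.card (QuotK (H.twist D) F 2) :=
    Pool.Agent.Q161.ESG.rank_le hFG h1'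
  exact Nat.le_log_of_pow_le (by norm_num) h4

end Pool.Agent.Q161.ESJ
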