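import Pool.Agent.Q161.ESJ.Def
import Pool.Agent.Q161.ESN.Stm4
import Pool.Agent.Q161.ESG.Stm5

/-!
# Project ESJ (helper161): Jacobians of hyperelliptic curves of odd degree over every number field `F`

GOAL.  The theorems of project ESG on Jacobians (`MP_1d384c_nt.AllMomentsJacobians`, `MP_a43263_nt.JointMomentsJacobians`;
there over `ℚ`, twists by squarefree integers) over EVERY number field `F`, for the twists by all `D ∈ F^*/F^*²`, with the
weights `M^ω(D)` of project ESB, and for all extensions of `F` with group `(ℤ/2)^m`.  The counting theorem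
(`Pool.Agent.Q161.ESB.S_CNT`) is proved.  What is missing is the descent for Jacobians over `F`: ALL JOBS ARE ADAPTATIONS of
modules of project ESG (named in the docstrings), `ℚ` replaced by `F`.

DIFFERENCES to `Pool/Agent/Q161/ESG/{JDef, Stm5}.lean`: `H : HP F` (coefficients in `F`), `pol H L` for `F`-algebras `L`, the maps of
points are for `φ : L →ₐ[F] M`, `act H σ` for `σ ∈ GF K` (`K = F` or a completion); `JacK H K` = `J(K)`.  In Part A there is NO TWIST
any more: the statements are for `H` itself, `L = F(θ)`, `h(θ) = 0` (they are applied to `H.twist D` and `D θ`).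

PART A: the 2-Selmer group and its map to `L^*/L^*²`.  PART B: the local conditions at the primes.  PART C: semisimplicity,
ranks over elementary abelian extensions, and the twists by squares.
-/

set_option autoImplicit false

namespace Pool.Agent.Q161.ESJ

open Polynomial NumberField IsDedekindDomain

open Pool.Agent.Y723.HJ (CR OddM HF nm cl val del)
open Pool.Agent.Q51.EL (Abv Par)
open Pool.Agent.Q161.ESM (Semi)
open Pool.Agent.Q161.ESN (Ov Fb SqF Gd1 VB)

/-- `L = F(θ)`, `θ` a zero of the irreducible polynomial `h` -/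
structure SetF {F : Type} [Field F] (H : HP F) (L : Type) [Field L] [Algebra F L] (θ : L) : Prop where
  irr : Irreducible H.pol
  root : aeval θ H.pol = 0
  deg : Module.finrank F L = H.pol.natDegree

/-! ## Part A: the 2-Selmer group -/

section sel

variable {F : Type} [Field F] [NumberField F]

/-- cocycles with values in `J[2]` which are trivial in `J` at all places -/
noncomputable def selJ (H : HP F) : AddSubgroup (GF F → Jac H (AlgebraicClosure F)) where
  carrier := {f | IsShaCocycle H f ∧ ∀ σ, f σ + f σ = 0}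
  zero_mem' := ⟨(shaCocycles H).zero_mem, fun σ => by simp⟩
  add_mem' := by
    rintro f g ⟨hf, hf2⟩ ⟨hg, hg2⟩
    refine ⟨(shaCocycles H).add_mem hf hg, fun σ => ?_⟩
    have e : (f + g) σ + (f + g) σ = (f σ + f σ) + (g σ + g σ) := by
      simp only [Pi.add_apply]
      abel
    rw [e, hf2, hg2, add_zero]
  neg_mem' := by
    rintro f ⟨hf, hf2⟩
    refine ⟨(shaCocycles H).neg_mem hf, fun σ => ?_⟩
    have e : (-f) σ + (-f) σ = -(f σ + f σ) := by
      simp only [Pi.neg_apply]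
      abel
    rw [e, hf2, neg_zero]

/-- the coboundaries of the points `T` with `2 T = 0` -/
noncomputable def cobJ (H : HP F) : AddSubgroup (GF F → Jac H (AlgebraicClosure F)) where
  carrier := {f | ∃ T : Jac H (AlgebraicClosure F), T + T = 0 ∧ ∀ σ, f σ = act H σ T - T}
  zero_mem' := ⟨0, by simp, fun σ => by simp [act_zero]⟩
  add_mem' := by
    rintro f g ⟨T, hT, hf⟩ ⟨U, hU, hg⟩
    refine ⟨T + U, ?_, fun σ => ?_⟩
    · have e : T + U + (T + U) = (T + T) + (U + U) := by abel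
      rw [e, hT, hU, add_zero]
    · simp only [Pi.add_apply, hf, hg, act_add]
      abel
  neg_mem' := by
    rintro f ⟨T, hT, hf⟩
    refine ⟨-T, ?_, fun σ => ?_⟩
    · have e : -T + -T = -(T + T) := by abel
      rw [e, hT, neg_zero]
    · simp only [Pi.neg_apply, hf, act_neg]
      abel

/-- the 2-Selmer group of the Jacobian of `y² = h(x)` over `F` -/
abbrev Sel2J (H : HP F) : Type := selJ H ⧸ (cobJ H).addSubgroupOf (selJ H)

end sel

/-- JOB GRPJ. `0 → J(F)/2 → Sel_2 → Ш[2] → 0` (adapt `Pool/Agent/Q129/ESG/GRPJ.lean`, theorem `Pool.Agent.Q129.ESG.grpj`). -/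
def S_GRPJ : Prop := ∀ (F : Type) [Field F] [NumberField F] (H : HP F), H.pol.Separable → Finite (Sel2J H) →
  Finite (QuotK H F 2) ∧ Finite (ShaTorsion H 2) ∧
    Nat.card (QuotK H F 2) * Nat.card (ShaTorsion H 2) ≤ Nat.card (Sel2J H)

/-- `s` is the sign of `T` at the zero `x` of `h`: `T` is the class of an ideal `I` prime to `x`, `I² = (a)`, and `s` is
the value of `a` at `(x, 0)` (normalised at infinity) divided by the value of the norm of `I` at `x` -/
def SgP {F : Type} [Field F] (H : HP F) (E : Type) [Field E] [Algebra F E] [HF (pol H E)] (T : Jac H E) (x s : E) :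
    Prop :=
  ∃ (I : Ideal (CR (pol H E))) (a : CR (pol H E)), I ≠ ⊥ ∧ (nm I).eval x ≠ 0 ∧
    (cl I : ClassGroup (CR (pol H E))) = T ∧ a ≠ 0 ∧ I ^ 2 = Ideal.span {a} ∧ s = val x a / del x I

open Classical in
/-- the sign -/
noncomputable def sg {F : Type} [Field F] (H : HP F) {E : Type} [Field E] [Algebra F E] [HF (pol H E)] (T : Jac H E)
    (x : E) : E :=
  if h : ∃ s, SgP H E T x s then h.choose else 1

open Classical in
/-- JOB SGP. The properties of the signs (adapt `Pool/Agent/Q161/ESG/SGP.lean`, theorem `Pool.Agent.Q161.ESG.sgp`, with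
`pol H E` for `H : HP F`; the lemmas of `Pool/Agent/Y723/HJ/*.lean` and most of those of `Pool/Agent/Q150/ESG/R1.lean` are for general
polynomials over a field). -/
def S_SGP : Prop := ∀ (F : Type) [Field F] [CharZero F] (H : HP F) (E : Type) [Field E] [Algebra F E]
  [IsAlgClosed E] [HF (pol H E)],
  (∀ T : Jac H E, T + T = 0 → ∀ x ∈ (pol H E).roots, sg H T x = 1 ∨ sg H T x = -1) ∧
  (∀ S T : Jac H E, S + S = 0 → T + T = 0 → ∀ x ∈ (pol H E).roots,
    sg H (S + T) x = sg H S x * sg H T x) ∧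
  (∀ T : Jac H E, T + T = 0 → (∀ x ∈ (pol H E).roots, sg H T x = 1) → T = 0) ∧
  (∀ s : E → E, (∀ x ∈ (pol H E).roots, s x = 1 ∨ s x = -1) → ∏ x ∈ (pol H E).roots.toFinset, s x = 1 →
    ∃ T : Jac H E, T + T = 0 ∧ ∀ x ∈ (pol H E).roots, sg H T x = s x) ∧
  (∀ T : Jac H E, T + T = 0 → ∏ x ∈ (pol H E).roots.toFinset, sg H T x = 1) ∧
  ∀ (E' : Type) [Field E'] [Algebra F E'] [IsAlgClosed E'] [HF (pol H E')] (φ : E →ₐ[F] E') (T : Jac H E),
    T + T = 0 → ∀ x ∈ (pol H E).roots, sg H (pointMap H φ T) (φ x) = φ (sg H T x)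

/-- Kummer data for the cocycle `f` with values in `J[2]`, `L = F(θ)`, `h(θ) = 0` -/
structure KDJ {F : Type} [Field F] (H : HP F) [HF (pol H (AlgebraicClosure F))] {L : Type} [Field L] [Algebra F L]
    (θ : L) (f : GF F → Jac H (AlgebraicClosure F)) (γ : (L →ₐ[F] AlgebraicClosure F) → AlgebraicClosure F)
    (δ : L) : Prop where
  ne : ∀ e, γ e ≠ 0
  gal : ∀ (σ : GF F) (e : L →ₐ[F] AlgebraicClosure F),
    σ (γ (σ.symm.toAlgHom.comp e)) = sg H (f σ) (e θ) * γ e
  sq : ∀ e, γ e ^ 2 = e δ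

/-- JOB KDJ. Every cocycle has Kummer data (adapt `Pool/Agent/Q176/ESG/KDJ.lean`; from `S_SGP`; Hilbert 90 over `F` is
proved: `Pool.Agent.Q153.ESF.k90f : Pool.Agent.Q161.ESF.S_K90F`, statement in `Pool/Agent/Q161/ESF/Stm7.lean`). -/
def S_KDJ : Prop := ∀ (F : Type) [Field F] [NumberField F] (H : HP F) [HF (pol H (AlgebraicClosure F))] (L : Type)
  [Field L] [Algebra F L] (θ : L), SetF H L θ → ∀ f : GF F → Jac H (AlgebraicClosure F),
  IsCocycle H f → (∀ σ, f σ + f σ = 0) →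
  ∃ (γ : (L →ₐ[F] AlgebraicClosure F) → AlgebraicClosure F) (δ : L), KDJ H θ f γ δ

/-- JOB KIJ. Injectivity (adapt `Pool/Agent/Q151/ESG/{Base, Kij}.lean`; from `S_SGP`). -/
def S_KIJ : Prop := ∀ (F : Type) [Field F] [NumberField F] (H : HP F) [HF (pol H (AlgebraicClosure F))] (L : Type)
  [Field L] [Algebra F L] (θ : L), SetF H L θ →
  ∀ (f f' : GF F → Jac H (AlgebraicClosure F)) (γ γ' : (L →ₐ[F] AlgebraicClosure F) → AlgebraicClosure F)
  (δ δ' : L), (∀ σ, f σ + f σ = 0) → (∀ σ, f' σ + f' σ = 0) → KDJ H θ f γ δ → KDJ H θ f' γ' δ' →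
  IsSquare (δ * δ') → ∃ T : Jac H (AlgebraicClosure F), T + T = 0 ∧
    ∀ σ : GF F, f σ - f' σ = act H σ T - T

/-- the class of `d(θ)` comes from a divisor class over `K`: a divisor given by `u, v`, prime to the Weierstrass
points, and `(-1)^(deg u) u(θ) d(θ)` is a square in `K[X]/(h)` -/
def LocX {F : Type} [Field F] (H : HP F) (K : Type) [Field K] [Algebra F K] (d : F[X]) : Prop :=
  ∃ u v G : K[X], u.Monic ∧ u ∣ pol H K - v ^ 2 ∧ IsCoprime u (pol H K) ∧
    pol H K ∣ C ((-1) ^ u.natDegree) * u * d.map (algebraMap F K) - G ^ 2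

/-- JOB KLJ. Local solubility (adapt `Pool/Agent/Q150/ESG/KLJ.lean`; from `S_SGP`; there `K = ℚ_p`, but nothing else is used
than that `K` is a field of characteristic zero; no twist here). -/
def S_KLJ : Prop := ∀ (F : Type) [Field F] [NumberField F] (H : HP F) [HF (pol H (AlgebraicClosure F))] (L : Type)
  [Field L] [Algebra F L] (θ : L), SetF H L θ →
  ∀ (f : GF F → Jac H (AlgebraicClosure F)) (γ : (L →ₐ[F] AlgebraicClosure F) → AlgebraicClosure F) (δ : L),
  (∀ σ, f σ + f σ = 0) → KDJ H θ f γ δ → ∀ (K : Type) [Field K] [Algebra F K], LocallyTrivial H K f →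
  ∀ d : F[X], aeval θ d = δ → LocX H K d

/-- JOB SHAJ. The classes of the elements of the Selmer group (adapt `Pool/Agent/Q151/ESG/Shaj.lean`; from `S_KDJ`,
`S_KIJ`, `S_KLJ`). -/
def S_SHAJ : Prop := ∀ (F : Type) [Field F] [NumberField F] (H : HP F) (L : Type) [Field L] [Algebra F L] (θ : L),
  SetF H L θ → ∃ Φ : Sel2J H → L,
    (∀ x, Φ x ≠ 0 ∧ ∃ d : F[X], aeval θ d = Φ x ∧ ∀ v : HeightOneSpectrum (𝓞 F),
      LocX H (v.adicCompletion F) d) ∧
    ∀ x y, IsSquare (Φ x * Φ y) → x = y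

/-! ## Part B: the local conditions -/

section loc

variable {l : ℕ} [Fact l.Prime]

/-- `τ` is trivial on `E` -/
def Ga (E : IntermediateField ℚ_[l] (PadicAlgCl l)) (τ : PadicAlgCl l ≃ₐ[ℚ_[l]] PadicAlgCl l) : Prop :=
  ∀ c ∈ E, τ c = c

/-- the coefficients of `p` are fixed by the automorphisms over `E` (that is, they are in `E`) -/
def Fx (E : IntermediateField ℚ_[l] (PadicAlgCl l)) (p : (PadicAlgCl l)[X]) : Prop :=
  ∀ τ : PadicAlgCl l ≃ₐ[ℚ_[l]] PadicAlgCl l, Ga E τ → ∀ i, τ (p.coeff i) = p.coeff i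

open Classical in
/-- the zeros of `f` -/
noncomputable def rts (f : (PadicAlgCl l)[X]) : Finset (PadicAlgCl l) := f.roots.toFinset

open Classical in
/-- the units of the points of order two -/
noncomputable def uO (f : (PadicAlgCl l)[X]) (e : PadicAlgCl l → ZMod 2) (x : PadicAlgCl l) : PadicAlgCl l :=
  if e x = 0 then ∏ y ∈ (rts f).filter (fun y => e y = 1), (x - y)
  else - ∏ y ∈ (rts f).filter (fun y => e y = 0), (x - y)

/-- `E` is unramified over `ℚ_l`, `f` is monic of odd degree with coefficients in `E`, and its zeros are integral and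
different modulo `l` -/
structure Gl (E : IntermediateField ℚ_[l] (PadicAlgCl l)) (f : (PadicAlgCl l)[X]) : Prop where
  val : ∀ c ∈ E, c ≠ 0 → ∃ m : ℤ, ‖c‖ = (l : ℝ) ^ m
  monic : f.Monic
  odd : Odd f.natDegree
  sep : f.Separable
  fx : Fx E f
  int : ∀ x ∈ rts f, ‖x‖ ≤ 1
  dist : ∀ x ∈ rts f, ∀ y ∈ rts f, x ≠ y → ‖x - y‖ = 1

end loc

/-- JOB INR. An element of the inertia group over `E` which moves `√D` (adapt `Pool/Agent/Q14/ESG/Inr.lean`, theorem
`Pool.Agent.Q14.ESG.Inr.inr`: there `E = ℚ_l`, `D ∈ ℤ`; `not_mem` for `ϖ ∉ E(ζ)`, with `E.restrictScalars ..` or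
`IntermediateField.adjoin ℚ_l (E ∪ {ζ})`; `φ`: an element of `E(ζ)` is `r(ζ)/t(ζ)`, `r, t` with coefficients in `E`). -/
def S_INR : Prop := ∀ (l : ℕ) [Fact l.Prime], l ≠ 2 → ∀ E : IntermediateField ℚ_[l] (PadicAlgCl l),
  (∀ c ∈ E, c ≠ 0 → ∃ m : ℤ, ‖c‖ = (l : ℝ) ^ m) → ∀ D ∈ E, ‖D‖ = (l : ℝ) ^ (-1 : ℤ) →
  ∀ ϖ : PadicAlgCl l, ϖ ^ 2 = D → ∀ Z : Finset (PadicAlgCl l), (∀ z ∈ Z, ‖z‖ ≤ 1) →
  ∃ σ : PadicAlgCl l ≃ₐ[ℚ_[l]] PadicAlgCl l, Ga E σ ∧ σ ϖ = -ϖ ∧ ∀ z ∈ Z, ‖σ z - z‖ < 1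

/-- JOB J3E. Primes not dividing `D` (adapt `Pool/Agent/Q14/ESG/J3e.lean`, theorem `Pool.Agent.Q14.ESG.j3e`; there
`E = ℚ_l`, `f = pol H`, `D ∈ ℤ`; the automorphisms `τ` now satisfy `Ga E τ`, which gives `τ (D) = D` and
`τ (u(ρ)) = u(τ ρ)`). -/
def S_J3E : Prop := ∀ (l : ℕ) [Fact l.Prime], l ≠ 2 → ∀ (E : IntermediateField ℚ_[l] (PadicAlgCl l))
  (f : (PadicAlgCl l)[X]), Gl E f → ∀ D ∈ E, ‖D‖ = 1 → ∀ u v : (PadicAlgCl l)[X], Fx E u → Fx E v → u.Monic →
  u ∣ f.scaleRoots D - v ^ 2 → IsCoprime u (f.scaleRoots D) →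
  ∃ c s : PadicAlgCl l → PadicAlgCl l,
    (∀ τ : PadicAlgCl l ≃ₐ[ℚ_[l]] PadicAlgCl l, Ga E τ → ∀ x ∈ rts f, s (τ x) = τ (s x)) ∧
    ∀ x ∈ rts f, ‖c x‖ = 1 ∧ s x ≠ 0 ∧ (-1) ^ u.natDegree * u.eval (D * x) = c x * s x ^ 2

/-- JOB J3. Primes dividing `D` exactly once (from `S_INR`; adapt `Pool/Agent/Q150/ESG/{J3A, J3B, J3C, J3D, J3}.lean`, theorem
`Pool.Agent.Q150.ESG.j3`; as in `S_J3E`). -/
def S_J3 : Prop := ∀ (l : ℕ) [Fact l.Prime], l ≠ 2 → ∀ (E : IntermediateField ℚ_[l] (PadicAlgCl l))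
  (f : (PadicAlgCl l)[X]), Gl E f → ∀ D ∈ E, ‖D‖ = (l : ℝ) ^ (-1 : ℤ) → ∀ u v : (PadicAlgCl l)[X], Fx E u →
  Fx E v → u.Monic → u ∣ f.scaleRoots D - v ^ 2 → IsCoprime u (f.scaleRoots D) →
  ∃ (e : PadicAlgCl l → ZMod 2) (s : PadicAlgCl l → PadicAlgCl l), ∑ x ∈ rts f, e x = 0 ∧
    (∀ τ : PadicAlgCl l ≃ₐ[ℚ_[l]] PadicAlgCl l, Ga E τ → ∀ x ∈ rts f, e (τ x) = e x ∧ s (τ x) = τ (s x)) ∧
    ∀ x ∈ rts f, s x ≠ 0 ∧
      (-1) ^ u.natDegree * u.eval (D * x) * (if e x = 1 then D else 1) * uO f e x = s x ^ 2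

/-- the condition of `S_EMBW`: the embedding `ψ` belongs to the prime `w` -/
def Nm {K : Type} [Field K] [NumberField K] {l : ℕ} [Fact l.Prime] (w : HeightOneSpectrum (𝓞 K))
    (ψ : K →+* PadicAlgCl l) : Prop :=
  ∀ (x : K) (m : ℤ), w.valuation K x = WithZero.exp (-m) → ‖ψ x‖ = (l : ℝ) ^ (-m)

/-- JOB CMP. The completion of `F` at the prime `v` below `w` in the algebraic closure of `ℚ_l`.
Proof.  `l` is unramified in `K`, so for `x ∈ F` the valuation at `v` is the one at `w` (`Ov w v`; see `val_blw` in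
`Pool/Agent/Q149/ESM/ZEXa.lean` or the modules of project ESN), and `‖ψ x‖ = l^(-m)` if it is `exp (-m)`.  `E` is a finite
extension of `ℚ_l` (`F` is a finite extension of `ℚ`), so it is complete (`FiniteDimensional.complete`).
`ψ : F → E` is uniformly continuous for the `v`-adic topology, so it extends to the completion
(`v.adicCompletion F` is the completion of `WithVal (v.valuation F)`; `UniformSpace.Completion.extensionHom`).  Last part: `ψ(F)` is
dense in `E` (`Pool.Agent.Q177.ESG.GDJ.approx`, `norm_ip`), and the norms of the `ψ x` are powers of `l`. -/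
def S_CMP : Prop := ∀ (F K : Type) [Field F] [NumberField F] [Field K] [NumberField K] [Algebra F K] (l : ℕ)
  [Fact l.Prime], Squarefree (Ideal.span {(l : 𝓞 K)}) → ∀ (w : HeightOneSpectrum (𝓞 K))
  (v : HeightOneSpectrum (𝓞 F)), Abv w l → Ov w v → ∀ ψ : K →+* PadicAlgCl l, Nm w ψ →
  (∃ j : v.adicCompletion F →+* PadicAlgCl l,
    (∀ x : F, j (algebraMap F (v.adicCompletion F) x) = ψ (algebraMap F K x)) ∧
    ∀ a, j a ∈ IntermediateField.adjoin ℚ_[l] (Set.range fun x : F => ψ (algebraMap F K x))) ∧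
  ∀ c ∈ IntermediateField.adjoin ℚ_[l] (Set.range fun x : F => ψ (algebraMap F K x)), c ≠ 0 →
    ∃ m : ℤ, ‖c‖ = (l : ℝ) ^ m

/-- JOB GDJ. The local conditions (from `S_J3`, `S_J3E`, `S_CMP`; adapt `Pool/Agent/Q177/ESG/GDJ.lean`, theorem
`Pool.Agent.Q177.ESG.GDJ.gdj`; `S_EMBW` is proved: `Pool.Agent.Q151.ESG.embw`; `S_FRX` is proved: `Pool.Agent.Q153.ESN.frx`).
Proof.  `B1` is divisible by 2, the ramified primes of `K` and such that the `ι θ - ι' θ`, `ι ≠ ι' : L → K` over `F`, are units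
at the `w` above `l ∤ B1`.  Given `w`, let `ψ` be as in `S_EMBW`, `v` the prime of `F` below `w` (exists, unique), `E` and `j` as in `S_CMP`,
`f` = the image of `h` under `ψ|F`: `Gl E f` (an automorphism `τ` with `Ga E τ` fixes `ψ(F)`; the zeros of `f` are the `ψ(ι θ)`).
`u, v, G` over `v.adicCompletion F` with the properties of `LocX (H.twist D)` are mapped to `Ω` by `j` (`Fx E`); the twist becomes
`f.scaleRoots (ψ D)`; `‖ψ D‖ = 1` or `l^(-1)` by `SqF B D`.  For `x = ψ(ι θ)`: `(-1)^(deg u) u(D x) ψ(ι δ) = G(D x)²`.  The rest as in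
`GDJ.lean`: `M_x` is equivariant for the `τ` with `Ga E τ`; if `τ` fixes `ψ(K)` then `Ga E τ`, so the norm of `M_x` is a power of
`l` (`norm_ip`).  For `φ ∈ Gal(K/F)` with `Fb w l φ` all automorphisms `τ` of `Ω` over `ℚ_l` satisfy `τ ψ = ψ φ^i` for some `i`
(`S_EMBW` for `φ` restricted to `ℚ`), so `Ga E τ`, and `∏_{ι ∈ A} M_ι` is in `ℚ_l`. -/
def S_GDJ : Prop := ∀ (F L : Type) [Field F] [NumberField F] [Field L] [NumberField L] [Algebra F L] (H : HP F)
  (th : 𝓞 L), SetF H L (th : L) → ∀ (K : Type) [Field K] [NumberField K] [Algebra F K] [IsGalois ℚ K],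
  Nonempty (L →ₐ[F] K) → ∃ B1 : ℕ, B1 ≠ 0 ∧ ∀ B : ℕ, B1 ∣ B → B ≠ 0 → ∀ D : 𝓞 F, SqF B D → ∀ δ : L, δ ≠ 0 →
    (∃ d : F[X], aeval (algebraMap F L (D : F) * (th : L)) d = δ ∧
      ∀ v : HeightOneSpectrum (𝓞 F), LocX (H.twist (D : F)) (v.adicCompletion F) d) →
    Gd1 F K th B D δ

/-! ## Part C: semisimplicity, ranks, twists by squares -/

/-- JOB SEMJ. Products of semisimple modules (from `S_SGP`; adapt `Pool/Agent/Q241/ESG/Semj.lean`, theorem
`Pool.Agent.Q241.ESG.Semj.semj`; there `ℚ` and `Gal(K/ℚ)`). -/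
def S_SEMJ : Prop := ∀ (C F : Type) [Fintype C] [Field F] [NumberField F] (H : C → HP F) (L : C → Type)
  [∀ c, Field (L c)] [∀ c, NumberField (L c)] [∀ c, Algebra F (L c)] (θ : (c : C) → L c),
  (∀ c, SetF (H c) (L c) (θ c)) → (∀ c, SemiTwo (H c)) → ∀ (K : Type) [Field K] [NumberField K]
  [Algebra F K] [IsGalois ℚ K], (∀ c, Nonempty (L c →ₐ[F] K)) → ∀ (V : Type) [AddCommGroup V]
  [DistribMulAction (K ≃ₐ[F] K) V] (cd : V →+ ((c : C) → (L c →ₐ[F] K) → ZMod 2)), VB cd →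
  Semi (K ≃ₐ[F] K) V

/-- JOB SYMJ. Polynomials with large Galois group (from `S_SGP`; adapt `Pool/Agent/Q151/ESG/Symj.lean`, theorem
`Pool.Agent.Q151.ESG.symj`). -/
def S_SYMJ : Prop := ∀ (F : Type) [Field F] [NumberField F] (H : HP F), Irreducible H.pol →
  (H.pol.natDegree = 3 ∨ Nat.card H.pol.Gal = H.pol.natDegree.factorial) → SemiTwo H

/-- JOB MQJ. The rank over an elementary abelian extension `K` of `F` (the analogue of `S_MQR` of
`Pool/Agent/Q161/ESG/Stm6.lean`, proved there for elliptic curves: see `Pool/Agent/Q161/ESG/AllG.lean`).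
Proof.  Let `Ω` be the algebraic closure of `K`; it is also one of `F` (`K/F` is algebraic; `IsAlgClosure.equiv F (AlgebraicClosure F) Ω`),
so that `J(K) ⊆ Jac H Ω` and `J_d(F)`, `J_d` the twist by `d`, is isomorphic to the group of the elements of `Jac (H.twist d) Ω` which
are fixed by all the `F`-automorphisms of `Ω`.  `G = Gal(K/F)` acts on `A = J(K)` (extend `σ` to `Ω`; the action on `A` does not depend
on the extension).  For a character `χ : G → {± 1}` there is an `s ∈ K^*` with `σ s = χ(σ) s` (the fixed field of the kernel is quadratic over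
`F` or `F`), `s² = c ∈ F`, `c = d_i t²`, so `s' = s/t`, `s'² = d_i =: d`, `σ s' = χ(σ) s'`.  The ring isomorphism
`x ↦ X/d`, `y ↦ Y/s'^n` from the coordinate ring of `H` over `Ω` to that of `H.twist d` (`Y² = d^n h(X/d)`, `s'^(2n) = d^n`, `n` odd) and an
`F`-automorphism `τ` of `Ω` commute up to the involution `y ↦ χ(τ) y`, which acts as `χ(τ)` on the class group (`I * conj(I)` is principal:
`Pool/Agent/Y723/HJ/*.lean`).  So `A^χ = {P ∈ A | σ P = χ(σ) P}` is isomorphic to a subgroup of (in fact to) `J_d(F)`.  The map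
`A → ∏_χ A^χ`, `P ↦ (∑_σ χ(σ) σ P)_χ`, has a kernel killed by `#G` (`∑_χ` of the components is `#G P`).  `A` is finitely generated, so
`rank A ≤ ∑_χ rank A^χ`, and different `χ` belong to different `i` (if `s'` and `s''` both have the square `d_i` then `s'' = ± s'`). -/
def S_MQJ : Prop := ∀ (F K : Type) [Field F] [NumberField F] [Field K] [NumberField K] [Algebra F K],
  IsGalois F K → (∀ σ : K ≃ₐ[F] K, σ * σ = 1) → ∀ (m : ℕ) (d : Fin m → F), (∀ i, d i ≠ 0) →
  (∀ (s : K) (c : F), s ≠ 0 → s ^ 2 = algebraMap F K c → ∃ (i : Fin m) (t : F), c = d i * t ^ 2) →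
  ∀ H : HP F, H.pol.Separable → AddGroup.FG (JacK H K) →
    ∃ ρ : Fin m → ℕ, Module.finrank ℤ (JacK H K) ≤ ∑ i, ρ i ∧
      ∀ i, Finite (QuotK (H.twist (d i)) F 2) → 2 ^ ρ i ≤ Nat.card (QuotK (H.twist (d i)) F 2)

/-- JOB SCJ. Twists by squares do not change anything: `x ↦ s² x`, `y ↦ s^n y` is an isomorphism over `F` of `y² = h(x)` and
`y² = s^(2n) h(x/s²)`, so of the coordinate rings over all `L`, compatible with the maps `coordMap`. -/
def S_SCJ : Prop := ∀ (F : Type) [Field F] [NumberField F] (H : HP F) (s : F), s ≠ 0 →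
  Nat.card (Sel2J (H.twist (s ^ 2))) = Nat.card (Sel2J H) ∧
  Nat.card (QuotK (H.twist (s ^ 2)) F 2) = Nat.card (QuotK H F 2) ∧
  Nat.card (ShaTorsion (H.twist (s ^ 2)) 2) = Nat.card (ShaTorsion H 2)

end Pool.Agent.Q161.ESJ
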